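import Pool.Agent.V7H2.FT.Defs

/-!
# The Casimir tensor of the monodromy group decides
-/

set_option autoImplicit false
set_option linter.unusedSectionVars false
set_option linter.unusedVariables false

namespace Pool.Agent.V7H2.FT

section form

variable {K : Type} [Field K] {W : Type} [AddCommGroup W] [Module K W] [FiniteDimensional K W]

/-- the linear map `w ↦ φ(·, w)` -/
def toDual {φ : W → W → K} (hφ : IsForm φ) : W →ₗ[K] Module.Dual K W where
  toFun w :=
    { toFun := fun v => φ v w
      map_add' := fun a b => hφ.add_left a b w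
      map_smul' := fun c a => by simp [hφ.smul_left] }
  map_add' a b := by ext v; exact hφ.add_right v a b
  map_smul' c a := by ext v; simp [hφ.smul_right]

theorem toDual_bij {φ : W → W → K} (hφ : IsForm φ) : Function.Bijective (toDual hφ) := by
  have hinj : Function.Injective (toDual hφ) := by
    rw [injective_iff_map_eq_zero]
    intro w hw
    exact hφ.right w fun v => LinearMap.congr_fun hw v
  refine ⟨hinj, ?_⟩
  exact (LinearMap.injective_iff_surjective_of_finrank_eq_finrank
    (Subspace.dual_finrank_eq).symm).1 hinj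

theorem trace_adjoint {φ : W → W → K} (hφ : IsForm φ) (X Z : Module.End K W)
    (h : ∀ v w, φ (X v) w = φ v (Z w)) : LinearMap.trace K W Z = LinearMap.trace K W X := by
  let e : W ≃ₗ[K] Module.Dual K W := LinearEquiv.ofBijective (toDual hφ) (toDual_bij hφ)
  have h1 : e.conj Z = Module.Dual.transpose (R := K) X := by
    rw [LinearEquiv.conj_apply]
    apply LinearMap.ext
    intro f
    obtain ⟨w, rfl⟩ := e.surjective f
    apply LinearMap.ext
    intro v
    simp only [LinearMap.comp_apply, LinearEquiv.coe_coe, LinearEquiv.symm_apply_apply]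
    exact (h v w).symm
  rw [← LinearMap.trace_transpose' X, ← h1, LinearMap.trace_conj']

theorem trace_mult [CharZero K] {φ : W → W → K} (hφ : IsForm φ) (X : Module.End K W) (c : K)
    (h : ∀ v w, φ (X v) w + φ v (X w) = c * φ v w) :
    2 * LinearMap.trace K W X = c * Module.finrank K W := by
  have h1 := trace_adjoint hφ X (c • 1 - X) (by
    intro v w
    have e : (c • (1 : Module.End K W) - X) w = c • w - X w := rfl
    rw [e, sub_eq_add_neg, ← neg_one_smul K (X w), hφ.add_right, hφ.smul_right, hφ.smul_right]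
    linear_combination h v w)
  rw [map_sub, map_smul, LinearMap.trace_one, smul_eq_mul] at h1
  linear_combination -h1

end form

variable {K : Type} [Field K] [CharZero K] {ι : Type} [Fintype ι] {V : ι → Type}
  [∀ i, AddCommGroup (V i)] [∀ i, Module K (V i)] [∀ i, FiniteDimensional K (V i)]
  {n : ι → ℤ} {φ : ∀ i, V i → V i → K} {g h : Submodule K (Ends K V)}

theorem tf_add_left (X Y Z : Ends K V) : tf (X + Y) Z = tf X Z + tf Y Z := by
  simp only [tf, ← Finset.sum_add_distrib]
  exact Finset.sum_congr rfl fun i _ => by rw [Pi.add_apply, add_mul, map_add]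

theorem tf_sub_left (X Y Z : Ends K V) : tf (X - Y) Z = tf X Z - tf Y Z := by
  simp only [tf, ← Finset.sum_sub_distrib]
  exact Finset.sum_congr rfl fun i _ => by rw [Pi.sub_apply, sub_mul, map_sub]

theorem tf_sub_right (X Y Z : Ends K V) : tf X (Y - Z) = tf X Y - tf X Z := by
  simp only [tf, ← Finset.sum_sub_distrib]
  exact Finset.sum_congr rfl fun i _ => by rw [Pi.sub_apply, mul_sub, map_sub]

theorem tf_smul_left (a : K) (X Y : Ends K V) : tf (a • X) Y = a * tf X Y := by
  simp only [tf, Finset.mul_sum]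
  exact Finset.sum_congr rfl fun i _ => by rw [Pi.smul_apply, smul_mul_assoc, map_smul, smul_eq_mul]

theorem tf_smul_right (a : K) (X Y : Ends K V) : tf X (a • Y) = a * tf X Y := by
  simp only [tf, Finset.mul_sum]
  exact Finset.sum_congr rfl fun i _ => by rw [Pi.smul_apply, mul_smul_comm, map_smul, smul_eq_mul]

theorem tf_comm (X Y : Ends K V) : tf X Y = tf Y X :=
  Finset.sum_congr rfl fun i _ => LinearMap.trace_mul_comm K (X i) (Y i)

/-- invariance of the trace form -/
theorem tf_br (X A Y : Ends K V) : tf (br X A) Y = - tf A (br X Y) := by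
  have h1 : ∀ i, LinearMap.trace K (V i) ((br X A) i * Y i) =
      - LinearMap.trace K (V i) (A i * (br X Y) i) := by
    intro i
    have e1 : (br X A) i * Y i = X i * (A i * Y i) - A i * X i * Y i := by
      simp only [br, Pi.sub_apply, Pi.mul_apply]; noncomm_ring
    have e2 : A i * (br X Y) i = A i * X i * Y i - A i * Y i * X i := by
      simp only [br, Pi.sub_apply, Pi.mul_apply]; noncomm_ring
    rw [e1, e2, map_sub, map_sub, LinearMap.trace_mul_comm K (X i) (A i * Y i)]
    ring
  simp only [tf, h1, Finset.sum_neg_distrib]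

/-- the Casimir tensor exists -/
theorem exists_casimir (hn : ∀ X ∈ h, (∀ Y ∈ h, tf X Y = 0) → X = 0) :
    ∃ P : Ends K V →ₗ[K] Ends K V, IsCasimir h P := by
  -- the map `h → Dual h`
  let B : Ends K V →ₗ[K] Module.Dual K h :=
    { toFun := fun X =>
        { toFun := fun Y => tf X Y
          map_add' := fun a b => by rw [tf_comm, Submodule.coe_add, tf_add_left, tf_comm, tf_comm X b]
          map_smul' := fun c a => by
            rw [Submodule.coe_smul, tf_smul_right]; rfl }
      map_add' := fun a b => by ext Y; exact tf_add_left a b Y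
      map_smul' := fun c a => by ext Y; exact tf_smul_left c a Y }
  have hinj : Function.Injective (B.comp h.subtype) := by
    rw [injective_iff_map_eq_zero]
    intro X hX
    apply Subtype.ext
    exact hn X X.2 fun Y hY => LinearMap.congr_fun hX ⟨Y, hY⟩
  have hbij : Function.Bijective (B.comp h.subtype) := ⟨hinj,
    (LinearMap.injective_iff_surjective_of_finrank_eq_finrank
      (Subspace.dual_finrank_eq).symm).1 hinj⟩
  let e : h ≃ₗ[K] Module.Dual K h := LinearEquiv.ofBijective _ hbij
  refine ⟨h.subtype.comp (e.symm.toLinearMap.comp B), fun X => (e.symm (B X)).2, fun X Y hY => ?_⟩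
  have h1 : B (h.subtype (e.symm (B X))) = B X := e.apply_symm_apply (B X)
  have h2 := LinearMap.congr_fun h1 ⟨Y, hY⟩
  have h3 : tf (h.subtype (e.symm (B X))) Y = tf X Y := h2
  rw [tf_sub_left]
  rw [sub_eq_zero]
  exact h3.symm

theorem casimir_id (hn : ∀ X ∈ h, (∀ Y ∈ h, tf X Y = 0) → X = 0) {P : Ends K V →ₗ[K] Ends K V}
    (hP : IsCasimir h P) {X : Ends K V} (hX : X ∈ h) : P X = X := by
  have h1 := hn (X - P X) (h.sub_mem hX (hP.1 X)) (fun Y hY => hP.2 X Y hY)
  exact (sub_eq_zero.1 h1).symm

/-- the Casimir tensor is a Tate class -/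
theorem casimir_inv (hl : ∀ X ∈ h, ∀ Y ∈ h, br X Y ∈ h)
    (hn : ∀ X ∈ h, (∀ Y ∈ h, tf X Y = 0) → X = 0) {P : Ends K V →ₗ[K] Ends K V}
    (hP : IsCasimir h P) : Invariant h P := by
  intro X hX A
  refine sub_eq_zero.1 (hn _ (h.sub_mem (hP.1 _) (hl X hX _ (hP.1 A))) fun Y hY => ?_)
  rw [tf_sub_left, tf_br]
  have h1 := hP.2 (br X A) Y hY
  rw [tf_sub_left, tf_br] at h1
  have h2 := hP.2 A (br X Y) (hl X hX Y hY)
  rw [tf_sub_left] at h2
  linear_combination -h1 - h2

/-- the existence of a Casimir tensor implies that the trace form is nondegenerate -/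
theorem nondeg_of_casimir [DecidableEq ι] {P : Ends K V →ₗ[K] Ends K V} (hP : IsCasimir h P) :
    Nondeg h := by
  intro X hX h0
  have h1 : ∀ Z : Ends K V, tf X Z = 0 := by
    intro Z
    have h2 := hP.2 Z X hX
    rw [tf_sub_left, tf_comm Z X, tf_comm (P Z) X, h0 (P Z) (hP.1 Z), sub_zero] at h2
    exact h2
  funext i
  ext v
  by_contra hne
  have hne' : X i v ≠ 0 := hne
  obtain ⟨f, hf⟩ : ∃ f : Module.Dual K (V i), f (X i v) ≠ 0 := by
    by_contra hcon
    push Not at hcon
    exact hne' ((Module.forall_dual_apply_eq_zero_iff K (X i v)).1 hcon)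
  apply hf
  have h3 := h1 (Pi.single i (dualTensorHom K (V i) (V i) (f ⊗ₜ[K] v)))
  rw [tf, Finset.sum_eq_single i (fun j _ hj => by
    rw [Pi.single_eq_of_ne hj, mul_zero, map_zero]) (fun hi => absurd (Finset.mem_univ i) hi),
    Pi.single_eq_same] at h3
  have h4 : X i * dualTensorHom K (V i) (V i) (f ⊗ₜ[K] v) =
      dualTensorHom K (V i) (V i) (f ⊗ₜ[K] (X i v)) := by
    ext u
    simp [dualTensorHom_apply]
  rw [h4, LinearMap.trace_eq_contract_apply, contractLeft_apply] at h3
  exact h3

/-- elements of `g` differ from their projections to `h` by elements which commute with `h` -/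
theorem decomp (hlh : ∀ X ∈ h, ∀ Y ∈ h, br X Y ∈ h) (hn : Nondeg h)
    {P : Ends K V →ₗ[K] Ends K V} (hP : IsCasimir h P) (hI : Invariant g P)
    {Y : Ends K V} (hY : Y ∈ g) : ∀ i, Commutes h i ((Y - P Y) i) := by
  intro i X hX
  have h1 : P (br Y X) = br Y X := by rw [hI Y hY, casimir_id hn hP hX]
  have h2 : P (br X Y) = br X (P Y) := casimir_inv hlh hn hP X hX Y
  have h3 : br X Y = - br Y X := by simp [br]
  rw [h3, map_neg, h1, ← h3] at h2
  have h4 := congrFun h2 i
  simp only [br, Pi.sub_apply, Pi.mul_apply] at h4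
  simp only [Pi.sub_apply]
  rw [mul_sub, sub_mul]
  rw [sub_eq_sub_iff_add_eq_add] at h4 ⊢
  rw [add_comm (Y i * X i), ← h4]

end Pool.Agent.V7H2.FT
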