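import Mathlib

/-!
# Lie algebras of the motivic Galois group and of the `ℓ`-adic monodromy group of several motives

`V i` is the `ℓ`-adic realization of a motive `M i`, pure of weight `n i`, with a polarization `φ i`.
-/

set_option autoImplicit false

namespace Pool.Agent.V7H2.FT

variable {K : Type} [Field K] {ι : Type} [Fintype ι] {V : ι → Type}
  [∀ i, AddCommGroup (V i)] [∀ i, Module K (V i)]

variable (K V) in
/-- the endomorphisms of the realizations of the motives `M i` -/
abbrev Ends : Type := ∀ i, Module.End K (V i)

/-- the commutator in the algebra of the endomorphisms -/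
def br (X Y : Ends K V) : Ends K V := X * Y - Y * X

/-- the trace form -/
noncomputable def tf (X Y : Ends K V) : K := ∑ i, LinearMap.trace K (V i) (X i * Y i)

/-- `A` commutes with the action of the Lie algebra `g` on `V i` -/
def Commutes (g : Submodule K (Ends K V)) (i : ι) (A : Module.End K (V i)) : Prop :=
  ∀ X ∈ g, X i * A = A * X i

/-- the linear map `Q` from `End (V i)` to `End (V j)` is equivariant for `g`, that is, it is an element
of `End (V i) ⊗ End (V j)` which is killed by `g` -/
def Equiv2 (g : Submodule K (Ends K V)) (i j : ι)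
    (Q : Module.End K (V i) →ₗ[K] Module.End K (V j)) : Prop :=
  ∀ X ∈ g, ∀ A, Q (X i * A - A * X i) = X j * Q A - Q A * X j

/-- `P` is the Casimir tensor of `h`, considered as an endomorphism of the sum of the `End (V i)`:
the projection onto `h` which is orthogonal for the trace form -/
def IsCasimir (h : Submodule K (Ends K V)) (P : Ends K V →ₗ[K] Ends K V) : Prop :=
  (∀ X, P X ∈ h) ∧ ∀ X, ∀ Y ∈ h, tf (X - P X) Y = 0

/-- `P`, an element of the sum of the `End (V i) ⊗ End (V j)`, is killed by `g` -/
def Invariant (g : Submodule K (Ends K V)) (P : Ends K V →ₗ[K] Ends K V) : Prop :=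
  ∀ X ∈ g, ∀ A, P (br X A) = br X (P A)

/-- `X` is in the Lie algebra of the group of the isometries of the polarizations -/
def Skew (φ : ∀ i, V i → V i → K) (X : Ends K V) : Prop :=
  ∀ i v w, φ i (X i v) w + φ i v (X i w) = 0

/-- `φ` is a nondegenerate bilinear form -/
structure IsForm {W : Type} [AddCommGroup W] [Module K W] (φ : W → W → K) : Prop where
  add_left : ∀ v v' w, φ (v + v') w = φ v w + φ v' w
  smul_left : ∀ (a : K) v w, φ (a • v) w = a * φ v w
  add_right : ∀ v w w', φ v (w + w') = φ v w + φ v w'
  smul_right : ∀ (a : K) v w, φ v (a • w) = a * φ v w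
  left : ∀ v, (∀ w, φ v w = 0) → v = 0
  right : ∀ w, (∀ v, φ v w = 0) → w = 0

/-- the trace form is nondegenerate on `g`; for the Lie algebra of an algebraic group of automorphisms of
the `V i` this means that the group is reductive, that is, the representation is semisimple -/
def Nondeg (g : Submodule K (Ends K V)) : Prop := ∀ X ∈ g, (∀ Y ∈ g, tf X Y = 0) → X = 0

/-- `g` is the Lie algebra of the motivic Galois group (with scalars extended to `K = ℚ_ℓ`) of the sum
of the motives `M i`, pure of the weights `n i` and with the polarizations `φ i`; `h` is the Lie algebra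
of the `ℓ`-adic monodromy group -/
structure Setup (n : ι → ℤ) (φ : ∀ i, V i → V i → K) (g h : Submodule K (Ends K V)) : Prop where
  form : ∀ i, IsForm (φ i)
  lie_g : ∀ X ∈ g, ∀ Y ∈ g, br X Y ∈ g
  lie_h : ∀ X ∈ h, ∀ Y ∈ h, br X Y ∈ h
  le : h ≤ g
  /-- the motivic Galois group is reductive -/
  red : Nondeg g
  /-- the weights -/
  weight : (fun i => (n i : K) • (1 : Module.End K (V i))) ∈ g
  /-- the polarizations are respected up to a power of the multiplier -/
  mult : ∀ X ∈ g, ∃ c : K, ∀ i v w, φ i (X i v) w + φ i v (X i w) = n i * c * φ i v w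

/-- all elements of the centre of `End (M i)` are self-adjoint for the polarization -/
def RealCentre (φ : ∀ i, V i → V i → K) (g : Submodule K (Ends K V)) : Prop :=
  ∀ i (A : Module.End K (V i)), Commutes g i A → (∀ B, Commutes g i B → A * B = B * A) →
    ∀ v w, φ i (A v) w = φ i v (A w)

/-- the derived algebra, the span of the brackets -/
def derived (g : Submodule K (Ends K V)) : Submodule K (Ends K V) :=
  Submodule.span K {Z | ∃ X ∈ g, ∃ Y ∈ g, Z = br X Y}

/-- all elements of `g` with trivial multiplier are in `h` -/
def SkewAgree (φ : ∀ i, V i → V i → K) (g h : Submodule K (Ends K V)) : Prop :=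
  ∀ Y ∈ g, Skew φ Y → Y ∈ h

/-- all endomorphisms of each `V i` which commute with `h` commute with `g` -/
def EndsAgree (g h : Submodule K (Ends K V)) : Prop :=
  ∀ i (A : Module.End K (V i)), Commutes h i A → Commutes g i A

/-- `h` has a Casimir tensor and it is killed by `g` -/
def CasimirAgree (g h : Submodule K (Ends K V)) : Prop :=
  ∃ P : Ends K V →ₗ[K] Ends K V, IsCasimir h P ∧ Invariant g P

/-- all elements of the `End (V i) ⊗ End (V j)` which are killed by `h` are killed by `g` -/
def PairsAgree (g h : Submodule K (Ends K V)) : Prop :=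
  ∀ i j (Q : Module.End K (V i) →ₗ[K] Module.End K (V j)), Equiv2 h i j Q → Equiv2 g i j Q

end Pool.Agent.V7H2.FT
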