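import Pool.Agent.V7H2.FT.Main

/-!
# Lie algebras acting on a finite family of vector spaces: the definitions of the statements

`F.V i` is the `ℓ`-adic realization (`K = ℚ_ℓ`) of a motive `M i` with a polarization `φ i`.
-/

set_option autoImplicit false
set_option linter.unusedSectionVars false

namespace Pool.Agent.V7H2.FT.Fam

/-- a finite family of finite dimensional vector spaces over `K` -/
structure Family (K : Type) [Field K] where
  I : Type
  V : I → Type
  fin : Fintype I
  dec : DecidableEq I
  acg : ∀ i, AddCommGroup (V i)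
  mod : ∀ i, Module K (V i)
  fd : ∀ i, FiniteDimensional K (V i)

attribute [instance] Family.fin Family.dec Family.acg Family.mod Family.fd

variable {K : Type} [Field K]

/-- the product of the algebras of endomorphisms `End (V i)` -/
def Ops (F : Family K) : Type := ∀ i, Module.End K (F.V i)

instance (F : Family K) : AddCommMonoid (Ops F) :=
  inferInstanceAs (AddCommMonoid (∀ i, Module.End K (F.V i)))

instance (F : Family K) : Module K (Ops F) :=
  inferInstanceAs (Module K (∀ i, Module.End K (F.V i)))

/-- the commutator of two endomorphisms of a vector space -/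
def comm {W : Type} [AddCommGroup W] [Module K W] (A B : Module.End K W) : Module.End K W :=
  A * B - B * A

variable {F : Family K}

/-- the commutator -/
def br (X Y : Ops F) : Ops F := fun i => comm (X i) (Y i)

/-- the trace form -/
noncomputable def tf (X Y : Ops F) : K := ∑ i, LinearMap.trace K (F.V i) (X i * Y i)

/-- `g` is a Lie algebra -/
def IsLie (g : Submodule K (Ops F)) : Prop := ∀ X ∈ g, ∀ Y ∈ g, br X Y ∈ g

/-- `A` commutes with the action of the Lie algebra `g` on `V i` -/
def Commutes (g : Submodule K (Ops F)) (i : F.I) (A : Module.End K (F.V i)) : Prop :=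
  ∀ X ∈ g, X i * A = A * X i

/-- linear maps from `End (V i)` to `End (V j)`, the elements of `End (V i) ⊗ End (V j)` (the trace
form identifies `End (V i)` with its dual) -/
def Hom2 (F : Family K) (i j : F.I) : Type := Module.End K (F.V i) →ₗ[K] Module.End K (F.V j)

/-- the value -/
def Hom2.app {i j : F.I} (Q : Hom2 F i j) (A : Module.End K (F.V i)) : Module.End K (F.V j) :=
  DFunLike.coe (F := Module.End K (F.V i) →ₗ[K] Module.End K (F.V j)) Q A

/-- the linear map `Q` from `End (V i)` to `End (V j)` is equivariant for `g`, that is, as an element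
of `End (V i) ⊗ End (V j)` it is killed by `g` -/
def Equiv2 (g : Submodule K (Ops F)) (i j : F.I) (Q : Hom2 F i j) : Prop :=
  ∀ X ∈ g, ∀ A, Q.app (comm (X i) A) = comm (X j) (Q.app A)

/-- `P` is the Casimir tensor of `h`, considered as an endomorphism of the sum of the `End (V i)`:
the projection onto `h` which is orthogonal for the trace form -/
def IsCasimir (h : Submodule K (Ops F)) (P : Ops F →ₗ[K] Ops F) : Prop :=
  (∀ X, P X ∈ h) ∧ ∀ X, ∀ Y ∈ h, tf (P X) Y = tf X Y

/-- `P`, an element of the sum of the `End (V i) ⊗ End (V j)`, is killed by `g` -/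
def Invariant (g : Submodule K (Ops F)) (P : Ops F →ₗ[K] Ops F) : Prop :=
  ∀ X ∈ g, ∀ A, P (br X A) = br X (P A)

/-- the trace form is nondegenerate on `g`; for the Lie algebra of an algebraic group of automorphisms of
the `V i` this means that the group is reductive, that is, the representation is semisimple -/
def Nondeg (g : Submodule K (Ops F)) : Prop := ∀ X ∈ g, (∀ Y ∈ g, tf X Y = 0) → X = 0

/-- a bilinear form on each `V i`, written as a function -/
def Forms (F : Family K) : Type := ∀ i : F.I, F.V i → F.V i → K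

/-- the multiplier of `X` on `V i` is `c i` -/
def Mult (φ : Forms F) (X : Ops F) (c : F.I → K) : Prop :=
  ∀ i v w, φ i (X i v) w + φ i v (X i w) = c i * φ i v w

/-- `X` is in the Lie algebra of the group of the isometries of the forms -/
def Skew (φ : Forms F) (X : Ops F) : Prop := Mult φ X 0

/-- the weights `n i` on the `V i` -/
def weight (F : Family K) (n : F.I → ℤ) : Ops F := fun i => (n i : K) • 1

/-- all elements of the centre of `End (M i)` (the commutant of `g` on `V i`) are self-adjoint -/
def RealCentre (φ : Forms F) (g : Submodule K (Ops F)) : Prop :=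
  ∀ i A, Commutes g i A → (∀ B, Commutes g i B → A * B = B * A) →
    ∀ v w, φ i (A v) w = φ i v (A w)

/-- the derived algebra, the span of the brackets -/
def derived (g : Submodule K (Ops F)) : Submodule K (Ops F) :=
  Submodule.span K {Z | ∃ X ∈ g, ∃ Y ∈ g, Z = br X Y}

/-- all elements of `g` with trivial multiplier are in `h` -/
def SkewAgree (φ : Forms F) (g h : Submodule K (Ops F)) : Prop := ∀ Y ∈ g, Skew φ Y → Y ∈ h

/-- all endomorphisms of each `V i` which commute with `h` commute with `g` -/
def EndsAgree (g h : Submodule K (Ops F)) : Prop := ∀ i A, Commutes h i A → Commutes g i A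

/-- `h` has a Casimir tensor and it is killed by `g` -/
def CasimirAgree (g h : Submodule K (Ops F)) : Prop := ∃ P, IsCasimir h P ∧ Invariant g P

/-- all elements of the `End (V i) ⊗ End (V j)` which are killed by `h` are killed by `g` -/
def PairsAgree (g h : Submodule K (Ops F)) : Prop := ∀ i j Q, Equiv2 h i j Q → Equiv2 g i j Q

/-- `g` is the Lie algebra of the motivic Galois group (with scalars extended to `K = ℚ_ℓ`) of the sum
of the motives `M i`, pure of the weights `n i` and with the polarizations `φ i`; `h` is the Lie algebra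
of the `ℓ`-adic monodromy group -/
structure Setup (n : F.I → ℤ) (φ : Forms F) (g h : Submodule K (Ops F)) : Prop where
  form : ∀ i, IsForm (φ i)
  lie_g : IsLie g
  lie_h : IsLie h
  le : h ≤ g
  /-- the motivic Galois group is reductive -/
  red : Nondeg g
  /-- the weights -/
  weight : weight F n ∈ g
  /-- the polarizations are respected up to a power of the multiplier -/
  mult : ∀ X ∈ g, ∃ c : K, Mult φ X fun i => n i * c

/-- Two Lie algebras of skew endomorphisms, the first one reductive; no inclusion is assumed. -/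
structure SkewPair (φ : Forms F) (g h : Submodule K (Ops F)) : Prop where
  form : ∀ i, IsForm (φ i)
  lie_g : IsLie g
  lie_h : IsLie h
  skew_g : ∀ X ∈ g, Skew φ X
  skew_h : ∀ X ∈ h, Skew φ X
  red : Nondeg g

/-! ## comparison with the unbundled definitions -/

section

variable [CharZero K]

theorem isCasimir_iff {h : Submodule K (Ops F)} {P : Ops F →ₗ[K] Ops F} :
    IsCasimir h P ↔ FT.IsCasimir (V := F.V) h P := by
  refine and_congr Iff.rfl (forall_congr' fun X => forall₂_congr fun Y hY => ?_)
  have h1 := FT.tf_sub_left (K := K) (V := F.V) X (P X) Y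
  constructor
  · intro h2
    exact h1.trans (sub_eq_zero.2 h2.symm)
  · intro h2
    exact (sub_eq_zero.1 (h1.symm.trans h2)).symm

theorem skew_iff {φ : Forms F} {X : Ops F} : Skew φ X ↔ FT.Skew (V := F.V) φ X := by
  constructor
  · intro h i v w
    have := h i v w
    rw [this]
    simp
  · intro h i v w
    have := h i v w
    rw [this]
    simp

theorem skewAgree_iff {φ : Forms F} {g h : Submodule K (Ops F)} :
    SkewAgree φ g h ↔ ∀ Y ∈ g, FT.Skew (V := F.V) φ Y → Y ∈ h :=
  forall₂_congr fun _ _ => imp_congr_left skew_iff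

theorem casimirAgree_iff {g h : Submodule K (Ops F)} :
    CasimirAgree g h ↔ ∃ P : FT.Ends K F.V →ₗ[K] FT.Ends K F.V,
      FT.IsCasimir (V := F.V) h P ∧ FT.Invariant (V := F.V) g P :=
  exists_congr fun _ => and_congr isCasimir_iff Iff.rfl

theorem equiv_old {g : Submodule K (Ops F)} {i j : F.I}
    (Q : Module.End K (F.V i) →ₗ[K] Module.End K (F.V j)) :
    FT.Equiv2 (K := K) (V := F.V) g i j Q ↔ Equiv2 g i j Q := Iff.rfl

theorem pairs_old {g h : Submodule K (Ops F)} (H : PairsAgree g h) (i j : F.I)
    (Q : Module.End K (F.V i) →ₗ[K] Module.End K (F.V j)) :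
    FT.Equiv2 (K := K) (V := F.V) h i j Q → FT.Equiv2 (K := K) (V := F.V) g i j Q := H i j Q

theorem Setup.old {n : F.I → ℤ} {φ : Forms F} {g h : Submodule K (Ops F)} (S : Setup n φ g h) :
    FT.Setup (V := F.V) n φ g h where
  form := S.form
  lie_g := S.lie_g
  lie_h := S.lie_h
  le := S.le
  red := S.red
  weight := S.weight
  mult := S.mult

/-- **The theorem for motives.** -/
theorem motives {n : F.I → ℤ} {φ : Forms F} {g h : Submodule K (Ops F)} (S : Setup n φ g h) :
    (RealCentre φ g → List.TFAE [SkewAgree φ g h, EndsAgree g h ∧ CasimirAgree g h,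
      Nondeg h ∧ PairsAgree g h]) ∧
    (EndsAgree g h → CasimirAgree g h → derived g = derived h) ∧
    (h = g ↔ EndsAgree g h ∧ CasimirAgree g h ∧ g ≤ derived g ⊔ h) := by
  have S' := S.old
  refine ⟨fun hR => ?_, fun h1 h2 => ?_, ?_⟩
  · rw [skewAgree_iff, casimirAgree_iff]
    exact FT.real_iff S' hR
  · obtain ⟨P, hP, hI⟩ := casimirAgree_iff.1 h2
    refine le_antisymm (FT.derived_le (V := F.V) S.lie_h hP hI h1) (Submodule.span_mono ?_)
    rintro _ ⟨X, hX, Y, hY, rfl⟩
    exact ⟨X, S.le hX, Y, S.le hY, rfl⟩
  · rw [casimirAgree_iff]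
    exact FT.general_iff S'

/-- **The theorem for two Lie algebras of skew endomorphisms.** -/
theorem pair {φ : Forms F} {g h : Submodule K (Ops F)} (S : SkewPair φ g h) :
    (RealCentre φ g → List.TFAE [h = g,
      (EndsAgree g h ∧ EndsAgree h g) ∧ CasimirAgree g h ∧ CasimirAgree h g,
      Nondeg h ∧ PairsAgree g h ∧ PairsAgree h g]) ∧
    (Nondeg h ∧ PairsAgree g h ∧ PairsAgree h g → derived g = derived h) := by
  refine ⟨fun hR => ?_, fun ⟨hn, hQ, hQ'⟩ => ?_⟩
  · have h0 := FT.noIncl (V := F.V) (φ := φ) S.form S.lie_g S.lie_h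
      (fun X hX => skew_iff.1 (S.skew_g X hX)) (fun X hX => skew_iff.1 (S.skew_h X hX)) S.red hR
    have h1 := h0.out 0 1
    have h2 := h0.out 0 2
    rw [casimirAgree_iff, casimirAgree_iff]
    tfae_have 1 ↔ 2 := h1.trans ⟨fun H => ⟨⟨fun i A => (H.1 i A).1, fun i A => (H.1 i A).2⟩,
      H.2.1, H.2.2⟩, fun H => ⟨fun i A => ⟨H.1.1 i A, H.1.2 i A⟩, H.2.1, H.2.2⟩⟩
    tfae_have 1 ↔ 3 := h2.trans ⟨fun H => ⟨H.1, fun i j Q => (H.2 i j Q).1,
      fun i j Q => (H.2 i j Q).2⟩, fun H => ⟨H.1, fun i j Q => ⟨pairs_old H.2.1 i j Q,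
        pairs_old H.2.2 i j Q⟩⟩⟩
    tfae_finish
  obtain ⟨P, hP⟩ := FT.exists_casimir (V := F.V) (h := h) hn
  obtain ⟨P', hP'⟩ := FT.exists_casimir (V := F.V) (h := g) S.red
  have e1 := FT.invariant_of_equiv (K := K) (V := F.V) (g := g) (h := h) (pairs_old hQ)
    (FT.casimir_inv (V := F.V) S.lie_h hn hP)
  have e2 := FT.invariant_of_equiv (K := K) (V := F.V) (g := h) (h := g) (pairs_old hQ')
    (FT.casimir_inv (V := F.V) S.lie_g S.red hP')
  have e3 := FT.commutes_of_equiv (K := K) (V := F.V) (g := g) (h := h)
    fun i Q => pairs_old hQ i i Q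
  have e4 := FT.commutes_of_equiv (K := K) (V := F.V) (g := h) (h := g)
    fun i Q => pairs_old hQ' i i Q
  exact le_antisymm (FT.derived_le (V := F.V) S.lie_h hP e1 e3)
    (FT.derived_le (V := F.V) S.lie_g hP' e2 e4)

end

end Pool.Agent.V7H2.FT.Fam
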