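import Pool.Agent.V7H2.FT.Core

/-!
# The Casimir tensor of the monodromy group decides: the equivalences
-/

set_option autoImplicit false
set_option linter.unusedSectionVars false
set_option linter.unusedVariables false

namespace Pool.Agent.V7H2.FT

variable {K : Type} [Field K] [CharZero K] {ι : Type} [Fintype ι] [DecidableEq ι] {V : ι → Type}
  [∀ i, AddCommGroup (V i)] [∀ i, Module K (V i)] [∀ i, FiniteDimensional K (V i)]
  {n : ι → ℤ} {φ : ∀ i, V i → V i → K} {g h : Submodule K (Ends K V)}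

/-- from the Casimir tensor to the Lie algebras -/
theorem skew_mem (F : ∀ i, IsForm (φ i)) (hR : RealCentre φ g)
    (hlh : ∀ X ∈ h, ∀ Y ∈ h, br X Y ∈ h)
    (hmh : ∀ X ∈ h, ∃ c : K, ∀ i v w, φ i (X i v) w + φ i v (X i w) = n i * c * φ i v w)
    {P : Ends K V →ₗ[K] Ends K V} (hP : IsCasimir h P) (hI : Invariant g P)
    (hE : ∀ i A, Commutes h i A ↔ Commutes g i A) {Y : Ends K V} (hY : Y ∈ g) (hs : Skew φ Y) :
    Y ∈ h := by
  have hn := nondeg_of_casimir hP
  have hc := decomp hlh hn hP hI hY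
  have ho := hP.2 Y
  obtain ⟨c, hm⟩ := hmh (P Y) (hP.1 Y)
  set Z : Ends K V := Y - P Y with hZdef
  have hZi : ∀ i u, (P Y) i u = Y i u - Z i u := by intro i u; simp [hZdef]
  have hZi' : ∀ i u, Z i u = Y i u + (-1 : K) • (P Y) i u := by
    intro i u; rw [neg_one_smul, ← sub_eq_add_neg]; rfl
  have hmZ : ∀ i v w, φ i (Z i v) w + φ i v (Z i w) = - (n i * c) * φ i v w := by
    intro i v w
    rw [hZi', hZi', (F i).add_left, (F i).add_right, (F i).smul_left, (F i).smul_right]
    linear_combination hs i v w - hm i v w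
  -- `Z i` is a scalar
  have hsc : ∀ i v, Z i v = (-((n i : K) * c) / 2) • v := by
    intro i v
    have h1 : ∀ v w, φ i (Z i v) w = φ i v (Z i w) := by
      refine hR i (Z i) ((hE i _).1 (hc i)) fun B hB => ?_
      have hB' := (hE i B).2 hB
      have e1 := hB Y hY
      have e2 := hB' (P Y) (hP.1 Y)
      simp only [hZdef, Pi.sub_apply, sub_mul, mul_sub]
      rw [e1, e2]
    have h2 : ∀ w, φ i (Z i v + (((n i : K) * c) / 2) • v) w = 0 := by
      intro w
      have h3 := hmZ i v w
      rw [← h1 v w] at h3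
      rw [(F i).add_left, (F i).smul_left]
      linear_combination h3 / 2
    have h4 := (F i).left _ h2
    rw [neg_div, neg_smul]
    exact eq_neg_of_add_eq_zero_left h4
  have hsc' : ∀ i, Z i = (-((n i : K) * c) / 2) • 1 := by
    intro i
    ext v
    rw [hsc i v]; rfl
  have htr : ∀ i, 2 * LinearMap.trace K (V i) ((P Y) i) =
      ((n i : K) * c) * Module.finrank K (V i) := fun i => trace_mult (F i) _ _ (hm i)
  have h0 := ho (P Y) (hP.1 Y)
  have h1 : tf Z (P Y) = - (c ^ 2 / 4) * ∑ i, ((n i : K) ^ 2 * Module.finrank K (V i)) := by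
    rw [tf, Finset.mul_sum]
    refine Finset.sum_congr rfl fun i _ => ?_
    rw [hsc' i, smul_mul_assoc, one_mul, map_smul, smul_eq_mul]
    linear_combination (-((n i : K) * c) / 4) * htr i
  rw [h1] at h0
  have hzero : ∀ i, Z i = 0 := by
    intro i
    by_cases hc0 : c = 0
    · rw [hsc' i, hc0]; simp
    have h2 : (∑ i, ((n i : K) ^ 2 * Module.finrank K (V i))) = 0 := by
      rcases mul_eq_zero.1 h0 with h3 | h3
      · exfalso
        apply hc0
        have : c ^ 2 = 0 := by linear_combination (-4) * h3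
        exact pow_eq_zero_iff (two_ne_zero) |>.1 this
      · exact h3
    have h3 : (∑ i, ((n i) ^ 2 * (Module.finrank K (V i) : ℤ))) = 0 := by
      have : ((∑ i, ((n i) ^ 2 * (Module.finrank K (V i) : ℤ)) : ℤ) : K) = 0 := by
        push_cast; exact h2
      exact_mod_cast this
    have h4 := (Finset.sum_eq_zero_iff_of_nonneg (fun i _ => by positivity)).1 h3 i
      (Finset.mem_univ i)
    rcases mul_eq_zero.1 h4 with h5 | h5
    · have : n i = 0 := pow_eq_zero_iff (two_ne_zero) |>.1 h5
      rw [hsc' i, this]; simp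
    · have h6 : Module.finrank K (V i) = 0 := by exact_mod_cast h5
      have : Subsingleton (V i) := Module.finrank_zero_iff.1 h6
      ext v
      exact Subsingleton.elim _ _
  have hZ0 : Z = 0 := funext hzero
  rw [hZdef, sub_eq_zero] at hZ0
  rw [hZ0]
  exact hP.1 Y

/-- the skew part of an element -/
theorem skewPart (F : ∀ i, IsForm (φ i)) {X : Ends K V} {c : K}
    (hm : ∀ i v w, φ i (X i v) w + φ i v (X i w) = n i * c * φ i v w) :
    Skew φ (X - (c / 2) • fun i => (n i : K) • (1 : Module.End K (V i))) := by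
  intro i v u
  have e1 : ∀ v, (X - (c / 2) • fun i => (n i : K) • (1 : Module.End K (V i))) i v =
      X i v + (-(c / 2 * n i)) • v := by
    intro v
    rw [neg_smul, mul_smul, ← sub_eq_add_neg]
    rfl
  rw [e1, e1, (F i).add_left, (F i).add_right, (F i).smul_left, (F i).smul_right]
  linear_combination hm i v u

/-- the equality of the Lie algebras implies that Tate classes are motivated -/
theorem equiv_of_skew (S : Setup n φ g h) (h1 : ∀ Y ∈ g, Skew φ Y → Y ∈ h) (i j : ι)
    (Q : Module.End K (V i) →ₗ[K] Module.End K (V j)) (hQ : Equiv2 h i j Q) : Equiv2 g i j Q := by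
  intro X hX A
  obtain ⟨c, hm⟩ := S.mult X hX
  let w : Ends K V := fun i => (n i : K) • (1 : Module.End K (V i))
  have hY : X - (c / 2) • w ∈ g := g.sub_mem hX (g.smul_mem _ S.weight)
  have hs : Skew φ (X - (c / 2) • w) := skewPart S.form hm
  have h2 := hQ _ (h1 _ hY hs) A
  have e1 : (X - (c / 2) • w) i * A - A * (X - (c / 2) • w) i = X i * A - A * X i := by
    simp only [w, Pi.sub_apply, Pi.smul_apply, sub_mul, mul_sub, smul_mul_assoc, mul_smul_comm,
      one_mul, mul_one]
    abel
  have e2 : (X - (c / 2) • w) j * Q A - Q A * (X - (c / 2) • w) j = X j * Q A - Q A * X j := by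
    simp only [w, Pi.sub_apply, Pi.smul_apply, sub_mul, mul_sub, smul_mul_assoc, mul_smul_comm,
      one_mul, mul_one]
    abel
  rw [e1, e2] at h2
  exact h2

/-- the trace of skew elements -/
theorem trace_skew (F : ∀ i, IsForm (φ i)) {X : Ends K V} (hs : Skew φ X) (i : ι) :
    LinearMap.trace K (V i) (X i) = 0 := by
  have h1 := trace_mult (F i) (X i) 0 fun v w => by rw [hs i v w, zero_mul]
  simpa using h1

/-- the equality of the skew parts implies that the trace form is nondegenerate on `h` -/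
theorem nondeg_of_skew (S : Setup n φ g h) (h1 : ∀ Y ∈ g, Skew φ Y → Y ∈ h) : Nondeg h := by
  intro X hX h0
  let w : Ends K V := fun i => (n i : K) • (1 : Module.End K (V i))
  obtain ⟨c, hm⟩ := S.mult X (S.le hX)
  have hX' : X - (c / 2) • w ∈ h :=
    h1 _ (g.sub_mem (S.le hX) (g.smul_mem _ S.weight)) (skewPart S.form hm)
  have hortho : ∀ Y : Ends K V, Skew φ Y → tf w Y = 0 := by
    intro Y hY
    refine Finset.sum_eq_zero fun i _ => ?_
    simp only [w, smul_mul_assoc, one_mul, map_smul, trace_skew S.form hY i, smul_zero]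
  have hcw : (c / 2) • w ∈ h := by
    have := h.sub_mem hX hX'
    rwa [sub_sub_cancel] at this
  have hXw : (c / 2) * tf X w = 0 := by rw [← tf_smul_right]; exact h0 _ hcw
  refine S.red X (S.le hX) fun Y hY => ?_
  obtain ⟨d, hd⟩ := S.mult Y hY
  have hY' : Y - (d / 2) • w ∈ h :=
    h1 _ (g.sub_mem hY (g.smul_mem _ S.weight)) (skewPart S.form hd)
  have h3 := h0 _ hY'
  rw [tf_sub_right, tf_smul_right] at h3
  -- `tf X w = (c / 2) tf w w`
  have h4 : tf X w = (c / 2) * tf w w := by
    have h5 := hortho _ (skewPart S.form hm)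
    rw [tf_sub_right, tf_smul_right, sub_eq_zero] at h5
    rw [tf_comm X w]; exact h5
  have h5 : tf X w = 0 := by
    by_cases hc0 : c = 0
    · rw [h4, hc0]; simp
    · rcases mul_eq_zero.1 hXw with h6 | h6
      · exact absurd (by linear_combination 2 * h6 : c = 0) hc0
      · exact h6
  rw [h5, mul_zero, sub_zero] at h3
  exact h3

/-- Tate classes in `End ⊗ End` contain the Tate endomorphisms -/
theorem commutes_of_equiv (H : ∀ i (Q : Module.End K (V i) →ₗ[K] Module.End K (V i)),
    Equiv2 h i i Q → Equiv2 g i i Q) (i : ι) (A : Module.End K (V i)) (hA : Commutes h i A) :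
    Commutes g i A := by
  intro X hX
  have h1 := H i (LinearMap.mulLeft K A) (fun X hX B => by
    simp only [LinearMap.mulLeft_apply]
    have h2 := hA X hX
    have e : A * (X i * B - B * X i) = (A * X i) * B - A * B * X i := by noncomm_ring
    rw [e, ← h2]; noncomm_ring) X hX 1
  simp only [LinearMap.mulLeft_apply, mul_one, one_mul, sub_self, mul_zero] at h1
  exact sub_eq_zero.1 h1.symm

/-- the Casimir tensor is a sum of Tate classes in the `End (V i) ⊗ End (V j)` -/
theorem invariant_of_equiv (H : ∀ i j (Q : Module.End K (V i) →ₗ[K] Module.End K (V j)),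
    Equiv2 h i j Q → Equiv2 g i j Q) {P : Ends K V →ₗ[K] Ends K V} (hP : Invariant h P) :
    Invariant g P := by
  intro X hX A
  funext j
  have hsum : ∀ B : Ends K V, (P B) j = ∑ i, (P (Pi.single i (B i))) j := by
    intro B
    conv_lhs => rw [← Finset.univ_sum_single B, map_sum]
    rw [Finset.sum_apply]
  have hQ : ∀ i, Equiv2 g i j ((LinearMap.proj j).comp (P.comp (LinearMap.single K _ i))) := by
    intro i
    refine H i j _ fun X hX A => ?_
    simp only [LinearMap.comp_apply, LinearMap.proj_apply, LinearMap.coe_single]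
    have h1 := congrFun (hP X hX (Pi.single i A)) j
    have e : br X (Pi.single i A) = Pi.single i (X i * A - A * X i) := by
      funext k
      by_cases hk : k = i
      · subst hk; simp [br]
      · simp [br, hk]
    rw [e] at h1
    rw [h1]
    rfl
  rw [hsum]
  have h1 : ∀ i, (P (Pi.single i ((br X A) i))) j =
      X j * (P (Pi.single i (A i))) j - (P (Pi.single i (A i))) j * X j := fun i => hQ i X hX (A i)
  rw [Finset.sum_congr rfl fun i _ => h1 i, Finset.sum_sub_distrib, ← Finset.mul_sum,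
    ← Finset.sum_mul, ← hsum A]
  rfl

/-- **The equivalences for motives with totally real centres.** -/
theorem real_iff (S : Setup n φ g h) (hR : RealCentre φ g) :
    List.TFAE [∀ Y ∈ g, Skew φ Y → Y ∈ h,
      (∀ i A, Commutes h i A → Commutes g i A) ∧
        ∃ P : Ends K V →ₗ[K] Ends K V, IsCasimir h P ∧ Invariant g P,
      Nondeg h ∧ ∀ i j (Q : Module.End K (V i) →ₗ[K] Module.End K (V j)),
        Equiv2 h i j Q → Equiv2 g i j Q] := by
  tfae_have 1 → 3 := fun h1 => ⟨nondeg_of_skew S h1, fun i j Q hQ => equiv_of_skew S h1 i j Q hQ⟩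
  tfae_have 3 → 2 := fun h3 => by
    refine ⟨fun i A hA => commutes_of_equiv (fun i Q hQ => h3.2 i i Q hQ) i A hA, ?_⟩
    obtain ⟨P, hP⟩ := exists_casimir (h := h) h3.1
    exact ⟨P, hP, invariant_of_equiv h3.2 (casimir_inv S.lie_h h3.1 hP)⟩
  tfae_have 2 → 1 := fun h2 Y hY hs => by
    obtain ⟨h3, P, hP, hI⟩ := h2
    exact skew_mem S.form hR S.lie_h (fun X hX => S.mult X (S.le hX)) hP hI
      (fun i A => ⟨h3 i A, fun hA X hX => hA X (S.le hX)⟩) hY hs
  tfae_finish

/-- **Arbitrary centres**: the derived algebras. -/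
theorem derived_le (hlh : ∀ X ∈ h, ∀ Y ∈ h, br X Y ∈ h) {P : Ends K V →ₗ[K] Ends K V}
    (hP : IsCasimir h P) (hI : Invariant g P) (hE : ∀ i A, Commutes h i A → Commutes g i A) :
    derived g ≤ derived h := by
  have hn := nondeg_of_casimir hP
  rw [derived, Submodule.span_le]
  rintro _ ⟨X, hX, Y, hY, rfl⟩
  have hX2 := decomp hlh hn hP hI hX
  have hY2 := decomp hlh hn hP hI hY
  have e : br X Y = br (P X) (P Y) := by
    funext i
    have h1 := hE i _ (hX2 i) Y hY
    have h2 := hY2 i (P X) (hP.1 X)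
    simp only [Pi.sub_apply] at h1 h2
    simp only [br, Pi.sub_apply, Pi.mul_apply]
    have h3 : X i * Y i - Y i * X i = (P X) i * Y i - Y i * (P X) i := by
      have : (X i - (P X) i) * Y i = Y i * (X i - (P X) i) := h1.symm
      have e1 : X i * Y i = (X i - (P X) i) * Y i + (P X) i * Y i := by noncomm_ring
      have e2 : Y i * X i = Y i * (X i - (P X) i) + Y i * (P X) i := by noncomm_ring
      rw [e1, e2, this]; abel
    rw [h3]
    have e3 : (P X) i * Y i = (P X) i * (Y i - (P Y) i) + (P X) i * (P Y) i := by noncomm_ring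
    have e4 : Y i * (P X) i = (Y i - (P Y) i) * (P X) i + (P Y) i * (P X) i := by noncomm_ring
    rw [e3, e4, h2]; abel
  rw [e]
  exact Submodule.subset_span ⟨_, hP.1 X, _, hP.1 Y, rfl⟩

theorem derived_self (hlh : ∀ X ∈ h, ∀ Y ∈ h, br X Y ∈ h) : derived h ≤ h := by
  rw [derived, Submodule.span_le]
  rintro _ ⟨X, hX, Y, hY, rfl⟩
  exact hlh X hX Y hY

/-- **Arbitrary centres**: the whole algebras. -/
theorem general_iff (S : Setup n φ g h) :
    h = g ↔ (∀ i A, Commutes h i A → Commutes g i A) ∧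
      (∃ P : Ends K V →ₗ[K] Ends K V, IsCasimir h P ∧ Invariant g P) ∧ g ≤ derived g ⊔ h := by
  constructor
  · intro e
    subst e
    obtain ⟨P, hP⟩ := exists_casimir (h := h) S.red
    exact ⟨fun i A hA => hA, ⟨P, hP, casimir_inv S.lie_h S.red hP⟩, le_sup_right⟩
  · rintro ⟨h1, ⟨P, hP, hI⟩, h3⟩
    refine le_antisymm S.le (h3.trans (sup_le ?_ le_rfl))
    exact (derived_le S.lie_h hP hI h1).trans (derived_self S.lie_h)

/-- **No inclusion**: two Lie algebras of skew endomorphisms. -/
theorem noIncl (F : ∀ i, IsForm (φ i)) (hlg : ∀ X ∈ g, ∀ Y ∈ g, br X Y ∈ g)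
    (hlh : ∀ X ∈ h, ∀ Y ∈ h, br X Y ∈ h) (hsg : ∀ X ∈ g, Skew φ X) (hsh : ∀ X ∈ h, Skew φ X)
    (hng : Nondeg g) (hR : RealCentre φ g) :
    List.TFAE [h = g,
      (∀ i A, Commutes h i A ↔ Commutes g i A) ∧
        (∃ P : Ends K V →ₗ[K] Ends K V, IsCasimir h P ∧ Invariant g P) ∧
        ∃ P : Ends K V →ₗ[K] Ends K V, IsCasimir g P ∧ Invariant h P,
      Nondeg h ∧ ∀ i j (Q : Module.End K (V i) →ₗ[K] Module.End K (V j)),
        Equiv2 h i j Q ↔ Equiv2 g i j Q] := by
  tfae_have 1 → 3 := fun h1 => by subst h1; exact ⟨hng, fun i j Q => Iff.rfl⟩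
  tfae_have 3 → 2 := fun h3 => by
    refine ⟨fun i A => ⟨fun hA => commutes_of_equiv (fun i Q hQ => (h3.2 i i Q).1 hQ) i A hA,
      fun hA => commutes_of_equiv (fun i Q hQ => (h3.2 i i Q).2 hQ) i A hA⟩, ?_, ?_⟩
    · obtain ⟨P, hP⟩ := exists_casimir (h := h) h3.1
      exact ⟨P, hP, invariant_of_equiv (fun i j Q => (h3.2 i j Q).1) (casimir_inv hlh h3.1 hP)⟩
    · obtain ⟨P, hP⟩ := exists_casimir (h := g) hng
      exact ⟨P, hP, invariant_of_equiv (fun i j Q => (h3.2 i j Q).2) (casimir_inv hlg hng hP)⟩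
  tfae_have 2 → 1 := fun h2 => by
    obtain ⟨hE, ⟨P, hP, hI⟩, ⟨P', hP', hI'⟩⟩ := h2
    have hR' : RealCentre φ h := fun i A hA hB =>
      hR i A ((hE i A).1 hA) fun B hB' => hB B ((hE i B).2 hB')
    have m1 : ∀ X ∈ h, ∃ c : K, ∀ i v w,
        φ i (X i v) w + φ i v (X i w) = ((fun _ => 0 : ι → ℤ) i : K) * c * φ i v w :=
      fun X hX => ⟨0, fun i v w => by rw [hsh X hX i v w]; simp⟩
    have m2 : ∀ X ∈ g, ∃ c : K, ∀ i v w,
        φ i (X i v) w + φ i v (X i w) = ((fun _ => 0 : ι → ℤ) i : K) * c * φ i v w :=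
      fun X hX => ⟨0, fun i v w => by rw [hsg X hX i v w]; simp⟩
    refine le_antisymm (fun Y hY => ?_) fun Y hY => ?_
    · exact skew_mem F hR' hlg m2 hP' hI' (fun i A => (hE i A).symm) hY (hsh Y hY)
    · exact skew_mem F hR hlh m1 hP hI hE hY (hsg Y hY)
  tfae_finish

end Pool.Agent.V7H2.FT
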